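import Pool.Agent.Run7.h716.ZW.Defs

set_option autoImplicit false

namespace Run7.h417.ZW

open Polynomial Run7.h716.ZW Filter Topology

theorem t_SMALL : S_SMALL := by
  intro A hA
  set n := A.natDegree with hn
  set M : ℝ := ∑ j ∈ Finset.range (n + 1), |A.coeff j| with hM
  have hc0 : 0 < |A.coeff 0| := abs_pos.mpr hA
  have hcM : |A.coeff 0| ≤ M := by
    refine Finset.single_le_sum (f := fun j => |A.coeff j|) (fun j _ => abs_nonneg _) ?_
    simp
  have hM0 : 0 < M := lt_of_lt_of_le hc0 hcM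
  have hb0 : 0 < |A.coeff 0| / M := div_pos hc0 hM0
  have hb1 : |A.coeff 0| / M ≤ 1 := (div_le_one hM0).mpr hcM
  refine ⟨|A.coeff 0| / M, hb0, ?_⟩
  intro F hF hr k
  set b := |A.coeff 0| / M with hb
  have hbM : b * M = |A.coeff 0| := by
    rw [hb]
    field_simp
  have hstep : ∀ j : ℕ, F (k + ((j + 1 : ℕ) : ℤ)) ≤ b * F k := by
    intro j
    induction j with
    | zero => simpa using hr k
    | succ j ih =>
      have h1 := hr (k + ((j + 1 : ℕ) : ℤ))
      have e : k + ((j + 1 : ℕ) : ℤ) + 1 = k + ((j + 1 + 1 : ℕ) : ℤ) := by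
        push_cast
        ring
      rw [e] at h1
      have h2 := hF (k + ((j + 1 : ℕ) : ℤ))
      nlinarith
  rw [ap_apply, Finset.sum_range_succ']
  have h0 : A.coeff 0 * F (k + ((0 : ℕ) : ℤ)) = A.coeff 0 * F k := by simp
  rw [h0]
  have hsum : |∑ j ∈ Finset.range A.natDegree, A.coeff (j + 1) * F (k + ((j + 1 : ℕ) : ℤ))|
      ≤ (∑ j ∈ Finset.range A.natDegree, |A.coeff (j + 1)|) * (b * F k) := by
    refine (Finset.abs_sum_le_sum_abs _ _).trans ?_
    rw [Finset.sum_mul]
    refine Finset.sum_le_sum fun j _ => ?_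
    rw [abs_mul, abs_of_nonneg (hF _)]
    exact mul_le_mul_of_nonneg_left (hstep j) (abs_nonneg _)
  have hMs : (∑ j ∈ Finset.range A.natDegree, |A.coeff (j + 1)|) ≤ M := by
    rw [hM, hn, Finset.sum_range_succ']
    linarith
  set Sg := ∑ j ∈ Finset.range A.natDegree, A.coeff (j + 1) * F (k + ((j + 1 : ℕ) : ℤ)) with hSg
  have hFk := hF k
  have h3 : |Sg| ≤ |A.coeff 0| * F k := by
    refine hsum.trans ?_
    have : 0 ≤ b * F k := mul_nonneg hb0.le hFk
    calc (∑ j ∈ Finset.range A.natDegree, |A.coeff (j + 1)|) * (b * F k)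
        ≤ M * (b * F k) := mul_le_mul_of_nonneg_right hMs this
      _ = |A.coeff 0| * F k := by rw [← hbM]; ring
  have h4 : |A.coeff 0 * Sg| ≤ |A.coeff 0| * (|A.coeff 0| * F k) := by
    rw [abs_mul]
    exact mul_le_mul_of_nonneg_left h3 (abs_nonneg _)
  have h5 := neg_abs_le (A.coeff 0 * Sg)
  have h6 : |A.coeff 0| * (|A.coeff 0| * F k) = A.coeff 0 * (A.coeff 0 * F k) := by
    have := abs_mul_abs_self (A.coeff 0)
    calc |A.coeff 0| * (|A.coeff 0| * F k) = (|A.coeff 0| * |A.coeff 0|) * F k := by ring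
      _ = A.coeff 0 * (A.coeff 0 * F k) := by rw [this]; ring
  rw [mul_add]
  linarith

theorem t_SGN : S_SGN := by
  intro A r hr hA
  -- choice of delta
  have hcont : Continuous fun δ : ℝ => ∑ j ∈ Finset.range (A.natDegree + 1),
      |A.coeff j| * ((r + δ) ^ j - (r - δ) ^ j) := by
    fun_prop
  have h0 : (fun δ : ℝ => ∑ j ∈ Finset.range (A.natDegree + 1),
      |A.coeff j| * ((r + δ) ^ j - (r - δ) ^ j)) 0 = 0 := by simp
  have hpos : 0 < |A.eval r| := abs_pos.mpr hA
  have hev : ∀ᶠ δ : ℝ in 𝓝 0, ∑ j ∈ Finset.range (A.natDegree + 1),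
      |A.coeff j| * ((r + δ) ^ j - (r - δ) ^ j) < |A.eval r| := by
    have h1 := hcont.tendsto 0
    have h2 : ∑ j ∈ Finset.range (A.natDegree + 1), |A.coeff j| * ((r + 0) ^ j - (r - 0) ^ j) = 0 :=
      h0
    rw [h2] at h1
    exact h1.eventually (gt_mem_nhds hpos)
  obtain ⟨ε, hε, hball⟩ := Metric.eventually_nhds_iff.mp hev
  set δ := min (ε / 2) (r / 2) with hδ
  have hδ0 : 0 < δ := lt_min (by linarith) (by linarith)
  have hδr : δ < r := lt_of_le_of_lt (min_le_right _ _) (by linarith)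
  have hE : ∑ j ∈ Finset.range (A.natDegree + 1),
      |A.coeff j| * ((r + δ) ^ j - (r - δ) ^ j) < |A.eval r| := by
    apply hball
    rw [Real.dist_eq, sub_zero, abs_of_pos hδ0]
    exact lt_of_le_of_lt (min_le_left _ _) (by linarith)
  refine ⟨δ, hδ0, hδr, ?_⟩
  intro F hF hlow hup k
  have hFk := hF k
  have hl : ∀ j : ℕ, (r - δ) ^ j * F k ≤ F (k + (j : ℤ)) := by
    intro j
    induction j with
    | zero => simp
    | succ j ih =>
      have h1 := hlow (k + (j : ℤ))
      have e : k + (j : ℤ) + 1 = k + ((j + 1 : ℕ) : ℤ) := by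
        push_cast
        ring
      rw [e] at h1
      refine le_trans ?_ h1
      rw [pow_succ']
      have : 0 ≤ r - δ := by linarith
      calc (r - δ) * (r - δ) ^ j * F k = (r - δ) * ((r - δ) ^ j * F k) := by ring
        _ ≤ (r - δ) * F (k + (j : ℤ)) := mul_le_mul_of_nonneg_left ih this
  have hu : ∀ j : ℕ, F (k + (j : ℤ)) ≤ (r + δ) ^ j * F k := by
    intro j
    induction j with
    | zero => simp
    | succ j ih =>
      have h1 := hup (k + (j : ℤ))
      have e : k + (j : ℤ) + 1 = k + ((j + 1 : ℕ) : ℤ) := by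
        push_cast
        ring
      rw [e] at h1
      refine le_trans h1 ?_
      rw [pow_succ']
      have : 0 ≤ r + δ := by linarith
      calc (r + δ) * F (k + (j : ℤ)) ≤ (r + δ) * ((r + δ) ^ j * F k) :=
            mul_le_mul_of_nonneg_left ih this
        _ = (r + δ) * (r + δ) ^ j * F k := by ring
  have hdiff : |ap A F k - A.eval r * F k| ≤ |A.eval r| * F k := by
    have hAe : A.eval r * F k = ∑ j ∈ Finset.range (A.natDegree + 1), A.coeff j * r ^ j * F k := by
      rw [eval_eq_sum_range, Finset.sum_mul]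
    rw [ap_apply, hAe, ← Finset.sum_sub_distrib]
    refine (Finset.abs_sum_le_sum_abs _ _).trans ?_
    have h1 : ∀ j ∈ Finset.range (A.natDegree + 1),
        |A.coeff j * F (k + (j : ℤ)) - A.coeff j * r ^ j * F k| ≤
        (|A.coeff j| * ((r + δ) ^ j - (r - δ) ^ j)) * F k := by
      intro j _
      have e : A.coeff j * F (k + (j : ℤ)) - A.coeff j * r ^ j * F k
          = A.coeff j * (F (k + (j : ℤ)) - r ^ j * F k) := by ring
      rw [e, abs_mul, mul_assoc]
      apply mul_le_mul_of_nonneg_left _ (abs_nonneg _)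
      have p1 : (r - δ) ^ j ≤ r ^ j := pow_le_pow_left₀ (by linarith) (by linarith) j
      have p2 : r ^ j ≤ (r + δ) ^ j := pow_le_pow_left₀ hr.le (by linarith) j
      have q1 := mul_le_mul_of_nonneg_right p1 hFk
      have q2 := mul_le_mul_of_nonneg_right p2 hFk
      have l1 := hl j
      have u1 := hu j
      rw [abs_le]
      constructor
      · linarith
      · linarith
    refine (Finset.sum_le_sum h1).trans ?_
    rw [← Finset.sum_mul]
    exact mul_le_mul_of_nonneg_right hE.le hFk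
  have h4 : |A.eval r * (ap A F k - A.eval r * F k)| ≤ |A.eval r| * (|A.eval r| * F k) := by
    rw [abs_mul]
    exact mul_le_mul_of_nonneg_left hdiff (abs_nonneg _)
  have h5 := neg_abs_le (A.eval r * (ap A F k - A.eval r * F k))
  have h6 : |A.eval r| * (|A.eval r| * F k) = A.eval r * (A.eval r * F k) := by
    have := abs_mul_abs_self (A.eval r)
    calc |A.eval r| * (|A.eval r| * F k) = (|A.eval r| * |A.eval r|) * F k := by ring
      _ = A.eval r * (A.eval r * F k) := by rw [this]; ring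
  have h7 : A.eval r * ap A F k = A.eval r * (ap A F k - A.eval r * F k)
      + A.eval r * (A.eval r * F k) := by ring
  rw [h7]
  linarith

end Run7.h417.ZW
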